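import Pool.Agent.H5.Wsat

set_option autoImplicit false

namespace Pool.Agent.Results.MP_6ac647_co.Counter

open Pool.Agent.H5.WsatDefs

theorem result (C : ℝ) : ∃ s t j : ℕ, 2 < s ∧ s ≤ t ∧ 2 ≤ j ∧ j + 3 ≤ t ∧
    C * j < |(wsat (s + t + j) (completeBipartiteGraph (Fin s) (Fin t)) : ℝ) - M s t j| :=
  H5.Wsat.main C

end Pool.Agent.Results.MP_6ac647_co.Counter
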